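import Mathlib
import Pool.Agent.Run7.h854.CG.All
import Pool.Agent.H447R2.ML.Spec

set_option autoImplicit false

/-!
# Primes in the real solutions of the Fibonacci recurrence: the correlations of the exponents of all
orders, among all primes

The real solutions of `T (n + 2) = T (n + 1) + T n` are the sequences
`T β B n = β φ ^ n + B ψ ^ n` with `φ = (1 + √5) / 2`, `ψ = (1 - √5) / 2`; the Fibonacci numbers are
the solution with `β = 1 / √5`, `B = -1 / √5`, the Lucas numbers the one with `β = B = 1`.  For a
prime `p` let `W β B p` be the `p`-rough part (the product, with multiplicity, of the prime factors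
larger than `p`) of `⌊T β B p⌋`.  For the Fibonacci and the Lucas numbers this is the number with the
index `p` itself, for all primes `p > 5`.  The exponents of `β`, `B` are the primes `p` with `W β B p` prime.

According to the Poisson model behind the conjecture the exponents form, on the scale `log p`, a
Poisson process of intensity `κ = e ^ γ / log φ`, for a general `β`.  Its correlation function of order
`r + 1` is the constant `κ ^ (r + 1)`: the number of the tuples of exponents
`p₀ < p₁ < … < p_r` with `p₀ ≤ n` and `u i < p (i + 1) / p i ≤ v i` should be asymptotic to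
`κ ^ (r + 1) (∏ log (v i / u i)) log n`.  (For `r = 0` this is the law of the starting theorems
`GoldenBase`, `GoldenWindows` of this page.)

We prove this, for the exponents among **all primes**, for almost every `β > 0` and **all** real `B` at
once, and for **all orders**, as long as the ratios of the exponents are at least a constant `C`.  For
example the number of the pairs of exponents `p ≤ n`, `p < q` with `u < q / p ≤ v`, where `C ≤ u < v`, is
asymptotic to `κ ^ 2 log (v / u) log n`.  More generally the `i`-th exponent of the tuple can be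
restricted to a set `S i` of primes with a density `δ i`, for example a residue class; the density of a
tuple is multiplied by `∏ δ i`.  (For the ratios `q / p` close to one only upper bounds are known: even
for almost every `β` this is a problem of the type of the twin prime problem.)

Proof.  The primes are divided into the cells `(exp (g h), exp ((g + 1) h)]`.  Let `Z g` be the
number of exponents in the cell `g`.  In an integer base (`MP_de9007_nt/CorrelationsOfExponents`) the digits of `β` give
nested partitions and orthogonal differences.  The partitions of the amplitudes given by the base `φ` are not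
nested.  Here the amplitudes are divided by their **binary** digits, and `Z g` is replaced by the function of the
binary digits up to a high level which agrees with `Z g`, eventually, for almost every `β`.  The
mean of `Z g` over a binary interval, whose length is a power `φ ^ (- c exp (g h))`, is computed from the theorem
on primes in almost all short intervals (starting file `N603/GW/FM`), and its mean square over **every** such
interval is bounded by the second moment for the golden base (starting file `N116/GW/SM`, that is by a sieve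
for the linear forms `F (h + 1) N + F h ⌊N / φ⌋`).  So the differences `∏ Z (g + d i) - (the same with the mean
of the last factor)` are orthogonal within residue classes and have bounded mean squares, and by induction the
means of `∏ Z (g + d i)` over `g` tend to `(κ h) ^ (r + 1)` for almost every `β`.  Then `h → 0`
(the files `Run7/h854/CG`, `Run7/h854/CO`).
-/

namespace Pool.Agent.Results.MP_5893d7_nt.CorrelationsOfExponents

open Filter Topology MeasureTheory

/-- The Lucas numbers. -/
def L : ℕ → ℕ
  | 0 => 2
  | 1 => 1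
  | (n + 2) => L (n + 1) + L n

/-- The golden ratio. -/
noncomputable def φ : ℝ := (1 + Real.sqrt 5) / 2

/-- The conjugate of the golden ratio. -/
noncomputable def ψ : ℝ := (1 - Real.sqrt 5) / 2

/-- The real solutions of the Fibonacci recurrence. -/
noncomputable def T (β B : ℝ) (n : ℕ) : ℝ := β * φ ^ n + B * ψ ^ n

/-- The product, with multiplicity, of the prime factors of `m` that are larger than `p`. -/
def roughPart (p m : ℕ) : ℕ := (m.primeFactorsList.filter (fun r => p < r)).prod

/-- The `p`-rough part of `⌊T β B p⌋`. -/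
noncomputable def W (β B : ℝ) (p : ℕ) : ℕ := roughPart p ⌊T β B p⌋₊

/-- The constant `e ^ γ / log φ`. -/
noncomputable def κ : ℝ := Real.exp Real.eulerMascheroniConstant / Real.log φ

/-- `S` is a set of primes, and the sum of `log p` over the `p ≤ x` in `S` is asymptotic to `δ x`. -/
def HasDensity (S : Set ℕ) (δ : ℝ) : Prop :=
  (∀ p ∈ S, p.Prime) ∧
  Tendsto (fun x : ℝ => (∑ p ∈ Finset.Icc 1 ⌊x⌋₊, S.indicator (fun p : ℕ => Real.log p) p) / x)
    atTop (𝓝 δ)

/-- The tuples of exponents `p 0, …, p r` of `β`, `B` with `p i` in `S i`, `p 0 ≤ n` and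
`u i < p (i + 1) / p i ≤ v i`. -/
def Tuples (S : ℕ → Set ℕ) (β B : ℝ) {r : ℕ} (u v : Fin r → ℝ) (n : ℕ) :
    Set (Fin (r + 1) → ℕ) :=
  {p | (∀ i : Fin (r + 1), p i ∈ S i ∧ (W β B (p i)).Prime) ∧ p 0 ≤ n ∧
    ∀ i : Fin r, u i * p i.castSucc < p i.succ ∧ (p i.succ : ℝ) ≤ v i * p i.castSucc}

lemma sqrt5_sq : Real.sqrt 5 ^ 2 = 5 := Real.sq_sqrt (by norm_num)

lemma sqrt5_pos : 0 < Real.sqrt 5 := Real.sqrt_pos.2 (by norm_num)

lemma phi_sq : φ ^ 2 = φ + 1 := by unfold φ; nlinarith [sqrt5_sq]

lemma psi_sq : ψ ^ 2 = ψ + 1 := by unfold ψ; nlinarith [sqrt5_sq]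

lemma T_rec (β B : ℝ) (n : ℕ) : T β B (n + 2) = T β B (n + 1) + T β B n := by
  unfold T
  rw [pow_add φ n 2, pow_add ψ n 2, phi_sq, psi_sq]
  ring

lemma T_zero (β B : ℝ) : T β B 0 = β + B := by unfold T; ring

lemma T_one (β B : ℝ) : T β B 1 = β * φ + B * ψ := by unfold T; ring

/-- the Fibonacci numbers -/
lemma T_fib (n : ℕ) : T (1 / Real.sqrt 5) (-(1 / Real.sqrt 5)) n = (Nat.fib n : ℝ) := by
  induction n using Nat.twoStepInduction with
  | zero => rw [T_zero]; simp
  | one =>
    rw [T_one]
    have := sqrt5_pos.ne'
    unfold φ ψ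
    rw [Nat.fib_one]
    field_simp
    push_cast
    ring
  | more n h1 h2 =>
    rw [T_rec, h1, h2, Nat.fib_add_two]
    push_cast
    ring

/-- the Lucas numbers -/
lemma T_luc (n : ℕ) : T 1 1 n = (L n : ℝ) := by
  induction n using Nat.twoStepInduction with
  | zero => rw [T_zero]; norm_num [L]
  | one =>
    rw [T_one, one_mul, one_mul]
    unfold φ ψ
    norm_num [L]
  | more n h1 h2 =>
    rw [T_rec, h1, h2]
    show _ = ((L (n + 1) + L n : ℕ) : ℝ)
    push_cast
    ring

lemma fib_eq (n : ℕ) : Pool.Agent.H447R2.ML.U 1 n = Nat.fib n := by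
  induction n using Nat.twoStepInduction with
  | zero => rfl
  | one => rfl
  | more n h1 h2 =>
    rw [Pool.Agent.H447R2.ML.U_add_two, h1, h2, Nat.fib_add_two]
    ring

lemma luc_eq (n : ℕ) : Pool.Agent.H447R2.ML.V 1 n = L n := by
  induction n using Nat.twoStepInduction with
  | zero => rfl
  | one => rfl
  | more n h1 h2 =>
    show _ = L (n + 1) + L n
    rw [Pool.Agent.H447R2.ML.V_add_two, h1, h2]
    ring

/-- The Fibonacci numbers. -/
lemma W_fib {p : ℕ} (hp : p.Prime) (h5 : 5 < p) :
    W (1 / Real.sqrt 5) (-(1 / Real.sqrt 5)) p = Nat.fib p := by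
  have hd : ¬ p ∣ 1 ^ 2 + 4 := by
    intro h
    have := Nat.le_of_dvd (by norm_num) h
    omega
  have h := Pool.Agent.H447R2.ML.rough_U 1 one_pos hp (by omega) hd
    (x := T (1 / Real.sqrt 5) (-(1 / Real.sqrt 5)) p) (by rw [T_fib, fib_eq])
  rw [fib_eq] at h
  exact h

/-- The Lucas numbers. -/
lemma W_luc {p : ℕ} (hp : p.Prime) (h5 : 5 < p) : W 1 1 p = L p := by
  have hd : ¬ p ∣ 1 := fun h => hp.one_lt.ne' (Nat.dvd_one.1 h)
  have h : Pool.Agent.H305R2.roughPart p ⌊T 1 1 p⌋₊ = L p := by
    rw [T_luc, Nat.floor_natCast]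
    refine Pool.Agent.H447R2.ML.roughPart_eq_self ?_ fun q hq h => ?_
    · rw [← luc_eq]
      exact (Pool.Agent.H447R2.ML.V_pos 1 p one_pos).ne'
    · rw [← luc_eq] at h
      exact Pool.Agent.H447R2.ML.lt_of_dvd_V 1 hp (by omega) hd hq
        (fun h' => hq.one_lt.ne' (Nat.dvd_one.1 h')) h
  exact h

/-- The special values; the densities of the set of all primes and of the primes in a residue class; for almost
every `β` and all real `B` the correlations of the exponents of all orders, at ratios at least `C`, are
those of the Poisson model. -/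
theorem result :
    (∀ n : ℕ, T (1 / Real.sqrt 5) (-(1 / Real.sqrt 5)) n = Nat.fib n ∧ T 1 1 n = L n) ∧
    (∀ p : ℕ, p.Prime → 5 < p →
      W (1 / Real.sqrt 5) (-(1 / Real.sqrt 5)) p = Nat.fib p ∧ W 1 1 p = L p) ∧
    HasDensity {p | p.Prime} 1 ∧
    (∀ (q : ℕ) [NeZero q] (c : ZMod q), IsUnit c →
      HasDensity {p | p.Prime ∧ (p : ZMod q) = c} (1 / (q.totient : ℝ))) ∧
    ∃ C : ℝ, ∀ (S : ℕ → Set ℕ) (δ : ℕ → ℝ), (∀ i, HasDensity (S i) (δ i)) →
      ∀ᵐ β : ℝ, 0 < β → ∀ (B : ℝ) (r : ℕ) (u v : Fin r → ℝ), (∀ i, C ≤ u i ∧ u i ≤ v i) →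
      Tendsto (fun n : ℕ => ((Tuples S β B u v n).ncard : ℝ) / Real.log n) atTop
        (𝓝 ((∏ i : Fin (r + 1), κ * δ i) * ∏ i : Fin r, Real.log (v i / u i))) := by
  refine ⟨fun n => ⟨T_fib n, T_luc n⟩, fun p hp h5 => ⟨W_fib hp h5, W_luc hp h5⟩,
    ⟨fun p hp => hp, ?_⟩, fun q _ c hc => ⟨fun p hp => hp.1, ?_⟩, ?_⟩
  · have h1 := Run7.h854.CO.hasD_class (q := 1) (a := 1) isUnit_one
    rw [Nat.totient_one, Nat.cast_one, inv_one] at h1
    have e : {p : ℕ | p.Prime ∧ (p : ZMod 1) = 1} = {p | p.Prime} := by
      ext p
      constructor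
      · exact fun h => h.1
      · exact fun h => ⟨h, Subsingleton.elim _ _⟩
    rw [e] at h1
    exact h1
  · have h1 := Run7.h854.CO.hasD_class hc
    rw [one_div]
    exact h1
  · obtain ⟨C, _, hC⟩ := Run7.h854.CG.cor_golden
    refine ⟨C, fun S δ hS => ?_⟩
    filter_upwards [hC S δ (fun i => (hS i).1) (fun i => (hS i).2)] with β hβ hβ0 B r u v huv
    have h1 := hβ hβ0 B r u v huv
    rw [Finset.prod_range] at h1
    exact h1

end Pool.Agent.Results.MP_5893d7_nt.CorrelationsOfExponents
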