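import Mathlib
import Pool.Agent.H447R2.ML.Spec
import Pool.Agent.N176.GW.All
import Pool.Agent.Run7.h93.GP.Pc
import Pool.Agent.Run7.h93.GP.Quench2

set_option autoImplicit false

/-!
# Primes in the real solutions of the Fibonacci recurrence: Poisson statistics of a single solution

The real solutions of `T (n + 2) = T (n + 1) + T n` are the sequences
`T β B n = β φ ^ n + B ψ ^ n` with `φ = (1 + √5) / 2`, `ψ = (1 - √5) / 2`; the Fibonacci numbers are
the solution with `β = 1 / √5`, `B = -1 / √5`, the Lucas numbers the one with `β = B = 1`.  For an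
index `p` let `W β B p` be the `p`-rough part (the product, with multiplicity, of the prime factors
larger than `p`) of `⌊T β B p⌋`.  For the Fibonacci and the Lucas numbers this is the number with the
index `p` itself, for all primes `p > 5`.

According to the Poisson model behind the conjecture the number of the indices `p` in a set `S` with
`W β B p` prime should behave like a Poisson variable with the expectation `κ * V S`,
`V S = ∑ p ∈ S, log p / p`, `κ = e ^ γ / log φ`, independently for disjoint sets.  For a single solution
this is a statement on frequencies: let `A 0, A 1, ...` be disjoint blocks of indices, each divided into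
`r` sets `A n s`; the proportion of the blocks with exactly `k s` such indices in the `s`-th set, for all
`s`, should be the mean of the probabilities `∏ e ^ (-κ V (A n s)) (κ V (A n s)) ^ (k s) / (k s)!`.  We
prove this for almost every `β > 0` and all real `B` at once, for all sequences of blocks of bounded
weight which are thin with a power rate: the weight of the part of the `n`-th block in `(x, 2 x]` is at
most `C (n + 1) ^ (-c)`, for all `x`, and its elements are at least `exp ((n + 1) ^ c / C)`.  For example
every `(n + 1)`-st prime in `(exp (n ^ 2), exp ((n + 1) ^ 2)]` is such a block.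

The starting results on almost all solutions (`GoldenWindows.lean`) give the counts up to the square
root of the weight, times logarithms, hence nothing for sets of bounded weight.  There is no condition on
the pairs `p`, `p + h` of indices in one block; in the integer bases such a condition is needed, as the
numbers of two close levels have a common rough part with positive probability
(`MP_adea1b_nt/PoissonLaw.lean`, helper854).

Proof.  Let `q` be the largest element of a finite set of indices.  By the starting theorem on primes in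
almost all short intervals (`Pool.Agent.N176.GW.All.fm`) the event of `q` has the probability
`κ * log q / q` independently of the integer part of `β φ ^ z`, `z = c q`, up to an error `O (1 / q)`; the
events of the indices below `c q / 2` are functions of this integer part up to a small probability; the
indices between `c q / 2` and `q` contribute little by upper bounds for pairs of indices: for
`q ≤ 2 (p - 1)` by the sieve bound of the starting library for several indices
(`Pool.Agent.N176.GW.All.kt`), for larger `q` by the upper bound in short intervals of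
`Pool/Agent/Run7/h854/PO/Up.lean`.  This gives the Laplace functional of a Poisson process for the union
of any two blocks, with an explicit error, hence a bound `O (i ^ (-c))` for the covariances of the
generating functions `∏ θ s ^ N s` of the blocks `i < j`, so that their averages converge almost
everywhere along the powers `M = k ^ (2 d)`, hence along all `M`; a continuity theorem for empirical
generating functions gives the proportions (`Pool/Agent/Run7/h93/GP`, in an abstract form for real
bases).

Authors: helper93; the plan of the Laplace functional is that of helper854 for integer bases; the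
starting libraries N176/GW and N176/OW and their authors (see `GoldenWindows.lean`).
-/

namespace Pool.Agent.Results.MP_5893d7_nt.PoissonStatistics

open Filter Topology MeasureTheory

/-- The Lucas numbers. -/
def L : ℕ → ℕ
  | 0 => 2
  | 1 => 1
  | (n + 2) => L (n + 1) + L n

/-- The golden ratio. -/
noncomputable def φ : ℝ := (1 + Real.sqrt 5) / 2

/-- The conjugate of the golden ratio. -/
noncomputable def ψ : ℝ := (1 - Real.sqrt 5) / 2

/-- The real solutions of the Fibonacci recurrence. -/
noncomputable def T (β B : ℝ) (n : ℕ) : ℝ := β * φ ^ n + B * ψ ^ n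

/-- The product, with multiplicity, of the prime factors of `m` that are larger than `p`. -/
def roughPart (p m : ℕ) : ℕ := (m.primeFactorsList.filter (fun r => p < r)).prod

/-- The `p`-rough part of `⌊T β B p⌋`. -/
noncomputable def W (β B : ℝ) (p : ℕ) : ℕ := roughPart p ⌊T β B p⌋₊

/-- The number of the elements `p` of `S` for which `W β B p` is prime. -/
noncomputable def N (β B : ℝ) (S : Finset ℕ) : ℕ := (S.filter (fun p => (W β B p).Prime)).card

/-- The weight of a finite set. -/
noncomputable def V (S : Finset ℕ) : ℝ := ∑ p ∈ S, Real.log p / p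

/-- The union of a finite family of finite sets. -/
def U {r : ℕ} (A : Fin r → Finset ℕ) : Finset ℕ := Finset.univ.biUnion A

/-- The constant `e ^ γ / log φ`. -/
noncomputable def κ : ℝ := Real.exp Real.eulerMascheroniConstant / Real.log φ

/-- The blocks `A n`, each divided into `r` sets: all the sets are disjoint, the elements of the `n`-th
block are at least `exp ((n + 1) ^ c / C)`, the weight of its part in `(x, 2 x]` is at most
`C (n + 1) ^ (-c)`, for all `x`, and its weight is at most `C`. -/
structure Blocks {r : ℕ} (A : ℕ → Fin r → Finset ℕ) : Prop where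
  disjoint : ∀ n s n' s', (n ≠ n' ∨ s ≠ s') → Disjoint (A n s) (A n' s')
  rate : ∃ c C : ℝ, 0 < c ∧ 0 < C ∧ ∀ n : ℕ,
    (∀ p ∈ U (A n), ((n : ℝ) + 1) ^ c ≤ C * Real.log p) ∧
    (∀ x : ℕ, V ((U (A n)).filter (fun p => x < p ∧ p ≤ 2 * x)) ≤ C * ((n : ℝ) + 1) ^ (-c)) ∧
    V (U (A n)) ≤ C

/-- The proportion of the blocks `A 0, ..., A (M - 1)` in which, for all `s`, the `s`-th set has exactly
`k s` elements `p` with `W β B p` prime. -/
noncomputable def F {r : ℕ} (β B : ℝ) (A : ℕ → Fin r → Finset ℕ) (k : Fin r → ℕ) (M : ℕ) : ℝ :=
  (((Finset.range M).filter (fun n => ∀ s, N β B (A n s) = k s)).card : ℝ) / M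

/-- The mean over the blocks `A 0, ..., A (M - 1)` of the probability that independent Poisson variables
with the expectations `κ * V (A n s)` are equal to `k s`, for all `s`. -/
noncomputable def P {r : ℕ} (A : ℕ → Fin r → Finset ℕ) (k : Fin r → ℕ) (M : ℕ) : ℝ :=
  (∑ n ∈ Finset.range M,
    ∏ s, (Real.exp (-(κ * V (A n s))) * (κ * V (A n s)) ^ k s / (k s).factorial)) / M

lemma sqrt5_sq : Real.sqrt 5 ^ 2 = 5 := Real.sq_sqrt (by norm_num)

lemma sqrt5_pos : 0 < Real.sqrt 5 := Real.sqrt_pos.2 (by norm_num)

lemma one_lt_phi : 1 < φ := by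
  unfold φ
  nlinarith [sqrt5_sq, sqrt5_pos]

lemma phi_add : φ + ψ = ((1 : ℤ) : ℝ) := by unfold φ ψ; push_cast; ring

lemma phi_mul : φ * ψ = -1 := by unfold φ ψ; nlinarith [sqrt5_sq]

lemma phi_sq : φ ^ 2 = φ + 1 := by unfold φ; nlinarith [sqrt5_sq]

lemma psi_sq : ψ ^ 2 = ψ + 1 := by unfold ψ; nlinarith [sqrt5_sq]

lemma T_rec (β B : ℝ) (n : ℕ) : T β B (n + 2) = T β B (n + 1) + T β B n := by
  unfold T
  rw [pow_add φ n 2, pow_add ψ n 2, phi_sq, psi_sq]
  ring

lemma T_zero (β B : ℝ) : T β B 0 = β + B := by unfold T; ring

lemma T_one (β B : ℝ) : T β B 1 = β * φ + B * ψ := by unfold T; ring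

/-- the Fibonacci numbers -/
lemma T_fib (n : ℕ) : T (1 / Real.sqrt 5) (-(1 / Real.sqrt 5)) n = (Nat.fib n : ℝ) := by
  induction n using Nat.twoStepInduction with
  | zero => rw [T_zero]; simp
  | one =>
    rw [T_one]
    have := sqrt5_pos.ne'
    unfold φ ψ
    rw [Nat.fib_one]
    field_simp
    push_cast
    ring
  | more n h1 h2 =>
    rw [T_rec, h1, h2, Nat.fib_add_two]
    push_cast
    ring

/-- the Lucas numbers -/
lemma T_luc (n : ℕ) : T 1 1 n = (L n : ℝ) := by
  induction n using Nat.twoStepInduction with
  | zero => rw [T_zero]; norm_num [L]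
  | one =>
    rw [T_one, one_mul, one_mul, phi_add]
    norm_num [L]
  | more n h1 h2 =>
    rw [T_rec, h1, h2]
    show _ = ((L (n + 1) + L n : ℕ) : ℝ)
    push_cast
    ring

lemma fib_eq (n : ℕ) : Pool.Agent.H447R2.ML.U 1 n = Nat.fib n := by
  induction n using Nat.twoStepInduction with
  | zero => rfl
  | one => rfl
  | more n h1 h2 =>
    rw [Pool.Agent.H447R2.ML.U_add_two, h1, h2, Nat.fib_add_two]
    ring

lemma luc_eq (n : ℕ) : Pool.Agent.H447R2.ML.V 1 n = L n := by
  induction n using Nat.twoStepInduction with
  | zero => rfl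
  | one => rfl
  | more n h1 h2 =>
    show _ = L (n + 1) + L n
    rw [Pool.Agent.H447R2.ML.V_add_two, h1, h2]
    ring

/-- The Fibonacci numbers. -/
lemma W_fib {p : ℕ} (hp : p.Prime) (h5 : 5 < p) :
    W (1 / Real.sqrt 5) (-(1 / Real.sqrt 5)) p = Nat.fib p := by
  have hd : ¬ p ∣ 1 ^ 2 + 4 := by
    intro h
    have := Nat.le_of_dvd (by norm_num) h
    omega
  have h := Pool.Agent.H447R2.ML.rough_U 1 one_pos hp (by omega) hd
    (x := T (1 / Real.sqrt 5) (-(1 / Real.sqrt 5)) p) (by rw [T_fib, fib_eq])
  rw [fib_eq] at h
  exact h

/-- The Lucas numbers. -/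
lemma W_luc {p : ℕ} (hp : p.Prime) (h5 : 5 < p) : W 1 1 p = L p := by
  have hd : ¬ p ∣ 1 := fun h => hp.one_lt.ne' (Nat.dvd_one.1 h)
  have h : Pool.Agent.H305R2.roughPart p ⌊T 1 1 p⌋₊ = L p := by
    rw [T_luc, Nat.floor_natCast]
    refine Pool.Agent.H447R2.ML.roughPart_eq_self ?_ fun q hq h => ?_
    · rw [← luc_eq]
      exact (Pool.Agent.H447R2.ML.V_pos 1 p one_pos).ne'
    · rw [← luc_eq] at h
      exact Pool.Agent.H447R2.ML.lt_of_dvd_V 1 hp (by omega) hd hq
        (fun h' => hq.one_lt.ne' (Nat.dvd_one.1 h')) h
  exact h

lemma psi_abs : |ψ| < 1 := by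
  have h1 := sqrt5_sq
  have h2 := sqrt5_pos
  unfold ψ
  rw [abs_lt]
  constructor <;> nlinarith

lemma kappa_pos : 0 < κ := div_pos (Real.exp_pos _) (Real.log_pos one_lt_phi)

/-- The special values; the Poisson statistics of the blocks for almost all solutions of the Fibonacci
recurrence. -/
theorem result :
    (∀ p : ℕ, p.Prime → 5 < p →
      W (1 / Real.sqrt 5) (-(1 / Real.sqrt 5)) p = Nat.fib p ∧ W 1 1 p = L p) ∧
    (∀ (r : ℕ) (A : ℕ → Fin r → Finset ℕ), Blocks A →
      ∀ᵐ β : ℝ, 0 < β → ∀ B : ℝ, ∀ k : Fin r → ℕ,
        Tendsto (fun M : ℕ => F β B A k M - P A k M) atTop (𝓝 0)) := by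
  classical
  refine ⟨fun p hp h5 => ⟨W_fib hp h5, W_luc hp h5⟩, ?_⟩
  intro r A hA
  have hsys := Run7.h93.GP.sys Real.one_lt_goldenRatio Pool.Agent.N176.GW.All.fm
    Pool.Agent.N176.GW.All.kt Pool.Agent.N176.GW.All.rb
  have hA' : Run7.h93.GP.Blk A :=
    { disj := hA.disjoint
      rate := hA.rate }
  have h := Run7.h93.GP.quench2 hsys kappa_pos hA' psi_abs
  have eN : ∀ (β B : ℝ) (S : Finset ℕ), Run7.h93.GP.cntE Run7.h93.GP.QQ Real.goldenRatio
      (fun _ p => B * ψ ^ p) S β = N β B S := by
    intro β B S
    unfold Run7.h93.GP.cntE N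
    congr 1
    ext p
    rw [Finset.mem_filter, Finset.mem_filter]
    exact Iff.rfl
  simp only [eN] at h
  filter_upwards [h] with β hβ hβ0 B k
  refine (hβ hβ0 B k).congr fun M => ?_
  unfold F P
  rw [← sub_div, Finset.sum_sub_distrib]
  congr 2
  rw [Finset.card_filter, Nat.cast_sum]
  refine Finset.sum_congr rfl fun n _ => ?_
  push_cast
  rfl

end Pool.Agent.Results.MP_5893d7_nt.PoissonStatistics
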