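import Pool.Agent.Run7.h166.FC.Logs

/-!
# Common divisors of Fibonacci or Lucas numbers and numbers with few digits: the sharp exponent

Let `n ≥ 1` be any index, `M = F_n` or `M = L_n`, and let `N` be an integer which is not a multiple of `M`.

(1) If `N = ∑_{i ∈ S} (x_i F_i + x'_i F_(i+1))` with `|S| = s` and arbitrary integers `x_i, x'_i`, then
`gcd (M, N) ≤ 2 ∑ (|x_i| + 2 |x'_i|) φ ^ (n - n / (2 s))`.
(2) The exponent is best possible for every `s`: `F_(2sm) / F_m = ± L_m ± L_(3m) ± ... + L_((2s-1)m)`.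
(3) If `N = ∑_{i ∈ S} x_i F_i` with `S ⊆ [0, n + 1]`, `|x_i| ≤ B`, and `S` does not meet an interval `[k, k + l) ⊆ [0, n]`,
then `φ ^ l gcd (M, N) ^ 2 ≤ 305 B ^ 2 M ^ 2`.
(4) So for `0 < N < M` the gaps between the Zeckendorf digits of `N` are at most `2 log_φ (M / gcd (M, N)) + 12`, and
(5) `N` has at least `c n / log (M / gcd (M, N))` digits; without the condition `N < M` it has at least
`c n / log (n M / gcd (M, N))` digits.
(6) If `M = d e` with `d, e > 1` then the number of digits of `d` is at least `c n / log e`.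

Proof (`Pool/Agent/Run7/h166/FC`).  Modulo `M` we have `φ ^ (2 n) = ± 1` in `ℤ[φ]`; so the powers of `φ` which occur in
`√5 N` are points of the circle `ℤ / 2 n`, at most `2 s` of them, and the largest gap can be rotated to the end of
`[0, 2 n)`.  The element of `ℤ[φ]` obtained in this way is not zero, is divisible by the common divisors of `M` and `N`,
and has a small norm.
-/

set_option autoImplicit false

namespace Pool.Agent.Results.MP_5893d7_nt.SharpCommonDivisors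

open Finset Real Pool.Agent.Run7.h166.FC

/-- **Common divisors of `F_n` or `L_n` and numbers with few digits: the sharp exponent.** -/
theorem result :
    -- (1) `s` blocks with arbitrary coefficients
    (∀ n : ℕ, 0 < n → ∀ M : ℕ, (M = Nat.fib n ∨ M = Nat.fib (n - 1) + Nat.fib (n + 1)) →
      ∀ (S : Finset ℕ) (x x' : ℕ → ℤ), ¬ (M : ℤ) ∣ ∑ i ∈ S, (x i * Nat.fib i + x' i * Nat.fib (i + 1)) →
        (Int.gcd M (∑ i ∈ S, (x i * Nat.fib i + x' i * Nat.fib (i + 1))) : ℝ) ≤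
          2 * (∑ i ∈ S, (|(x i : ℝ)| + 2 * |(x' i : ℝ)|)) * goldenRatio ^ ((n : ℝ) - n / (2 * S.card))) ∧
    -- (2) the exponent is best possible for every number of blocks
    (∀ s m : ℕ, 0 < s → 3 ≤ m →
      ∃ (S : Finset ℕ) (x x' : ℕ → ℤ), S.card = s ∧ (∀ i ∈ S, |x i| = 1 ∧ |x' i| = 2) ∧
        (∀ i ∈ S, i < 2 * s * m) ∧
        ¬ (Nat.fib (2 * s * m) : ℤ) ∣ ∑ i ∈ S, (x i * Nat.fib i + x' i * Nat.fib (i + 1)) ∧
        goldenRatio ^ (2 * s * m - m - 1) ≤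
          (Int.gcd (Nat.fib (2 * s * m)) (∑ i ∈ S, (x i * Nat.fib i + x' i * Nat.fib (i + 1))) : ℝ)) ∧
    -- (3) intervals without digits
    (∀ n : ℕ, 0 < n → ∀ M : ℕ, (M = Nat.fib n ∨ M = Nat.fib (n - 1) + Nat.fib (n + 1)) →
      ∀ (S : Finset ℕ) (x : ℕ → ℤ) (B : ℝ) (k l : ℕ), (∀ i ∈ S, i ≤ n + 1) → (∀ i ∈ S, |(x i : ℝ)| ≤ B) →
        k + l ≤ n + 1 → (∀ i ∈ S, i < k ∨ k + l ≤ i) → ¬ (M : ℤ) ∣ ∑ i ∈ S, x i * Nat.fib i →
        goldenRatio ^ l * (Int.gcd M (∑ i ∈ S, x i * Nat.fib i) : ℝ) ^ 2 ≤ 305 * B ^ 2 * (M : ℝ) ^ 2) ∧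
    -- (4) intervals without Zeckendorf digits
    (∀ n : ℕ, 0 < n → ∀ M : ℕ, (M = Nat.fib n ∨ M = Nat.fib (n - 1) + Nat.fib (n + 1)) →
      ∀ N : ℕ, 0 < N → N < M → ∀ k l : ℕ, k + l ≤ n + 1 → (∀ i ∈ N.zeckendorf, i < k ∨ k + l ≤ i) →
        goldenRatio ^ l * (Nat.gcd M N : ℝ) ^ 2 ≤ 305 * (M : ℝ) ^ 2) ∧
    -- (5), (6) the number of digits
    (∃ c : ℝ, 0 < c ∧ ∀ n : ℕ, 2 ≤ n → ∀ M : ℕ, (M = Nat.fib n ∨ M = Nat.fib (n - 1) + Nat.fib (n + 1)) →
      (∀ N : ℕ, ¬ M ∣ N → c * n / Real.log (n * ((M : ℝ) / Nat.gcd M N)) ≤ (N.zeckendorf.length : ℝ)) ∧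
      (∀ N : ℕ, 0 < N → N < M → c * n / Real.log ((M : ℝ) / Nat.gcd M N) ≤ (N.zeckendorf.length : ℝ)) ∧
      (∀ d e : ℕ, 1 < d → 1 < e → d * e = M → c * n ≤ (d.zeckendorf.length : ℝ) * Real.log e)) := by
  obtain ⟨c, hc, hD⟩ := partD
  refine ⟨fun n hn M hM S x x' hnd => partA hn hM S x x' hnd, fun s m hs hm => partA' s m hs hm,
    fun n hn M hM S x B k l hS hx hkl hgap hnd => partB hn hM S hS x B hx k l hkl hgap hnd,
    fun n hn M hM N hN0 hNM k l hkl hgap => partC1 hn hM N hN0 hNM k l hkl hgap,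
    c, hc, fun n hn M hM => ⟨fun N hnd => (hD n hn M hM N hnd).1, fun N hN0 hNM => ?_, ?_⟩⟩
  · have hnd : ¬ M ∣ N := fun h => by
      have := Nat.le_of_dvd hN0 h
      omega
    exact (hD n hn M hM N hnd).2 hNM
  · intro d e hd he hde
    have hdM : d < M := by
      rw [← hde]
      exact lt_mul_of_one_lt_right (by omega) he
    have hnd : ¬ M ∣ d := fun h => by
      have := Nat.le_of_dvd (by omega) h
      omega
    have h := (hD n hn M hM d hnd).2 hdM
    have hg : Nat.gcd M d = d := Nat.gcd_eq_right ⟨e, hde.symm⟩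
    have hdr : (0 : ℝ) < d := by exact_mod_cast (by omega : 0 < d)
    have he1 : (1 : ℝ) < e := by exact_mod_cast he
    have hq : (M : ℝ) / d = e := by
      rw [div_eq_iff hdr.ne', ← hde]
      push_cast
      ring
    rw [hg, hq, div_le_iff₀ (Real.log_pos he1)] at h
    exact h

end Pool.Agent.Results.MP_5893d7_nt.SharpCommonDivisors
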