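import Pool.Agent.Run7.h370.Fib2

/-!
# Sparse multiples of divisors of Fibonacci and Lucas numbers with prime index

Let `p` be a prime, `M = F_p` or `M = L_p`, and let `N` be an integer which is not a multiple of `M`.  If
`N = ∑_{i ∈ S} (x_i F_i + x'_i F_(i+1))` with `|S| = s` and arbitrary integers `x_i, x'_i` then, for every `t ≥ 1` with
`t ^ s < p`,
`gcd (M, N) ≤ (2 ∑ (|x_i| + 2 |x'_i|)) ^ (2 t ^ s) φ ^ (2 p / t)`.
So a number with `k` Zeckendorf digits which is not a multiple of `M` has at most `exp (C_k p ^ (k / (k + 1)))` in common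
with `M`.  For every `δ > 0` there is `c > 0` such that, for every divisor `d ≥ exp (δ p)` of `M`, the multiples of `d` that
are not multiples of `M`, among them `d` itself if `d < M`, all have at least `c log p` Zeckendorf digits, and these digits
are not contained in fewer than `c log (p / ℓ)` intervals of length `ℓ`.  If `M` is composite this applies to all the proper
divisors `d ≥ √M` of `M`.  The number `M` itself has one digit if `M = F_p`, and two if `M = L_p`.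

Proof (`Pool/Agent/Run7/h370`).  Take `q ≤ t ^ s` such that all `q i` are close to multiples of `p`, and write
`(φ - φ') N` modulo `φ ^ p - 1` (for `L_p`) or modulo `φ ^ (2 p) + 1` (for `F_p`) as a Laurent polynomial with small
exponents in an element `y` with `y ^ q = φ`, respectively `y ^ q = - φ ^ 2`.  The polynomials `X ^ q - φ` and
`X ^ q + φ ^ 2` are irreducible over `ℚ(φ)` for all `q`; so either the Laurent polynomial is zero modulo this binomial,
and then `M` divides `N`, or the resultant of the two is a nonzero element of `ℤ[φ]` whose norm is a multiple of the common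
divisor (of its square, in the second case).
-/

set_option autoImplicit false

namespace Pool.Agent.Results.MP_5893d7_nt.SparseMultiples

open Run7.h370

/-- **Sparse multiples of divisors of Fibonacci and Lucas numbers.** -/
theorem result :
    -- arbitrary coefficients
    (∀ p : ℕ, p.Prime → ∀ M : ℤ, (M = Nat.fib p ∨ M = Nat.fib (p - 1) + Nat.fib (p + 1)) →
      ∀ (S : Finset ℕ) (x x' : ℕ → ℤ) (t : ℕ), 0 < t → t ^ S.card < p →
        ¬ M ∣ ∑ i ∈ S, (x i * Nat.fib i + x' i * Nat.fib (i + 1)) →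
        (Int.gcd M (∑ i ∈ S, (x i * Nat.fib i + x' i * Nat.fib (i + 1))) : ℝ) ≤
          (2 * ∑ i ∈ S, (|(x i : ℝ)| + 2 * |(x' i : ℝ)|)) ^ (2 * t ^ S.card) *
            Real.goldenRatio ^ (2 * (p / t))) ∧
    -- Zeckendorf digits
    (∀ p : ℕ, p.Prime → ∀ M : ℕ, (M = Nat.fib p ∨ M = Nat.fib (p - 1) + Nat.fib (p + 1)) →
      ∀ N t : ℕ, 0 < t → t ^ N.zeckendorf.length < p → ¬ M ∣ N →
        (Nat.gcd M N : ℝ) ≤ (2 * (N.zeckendorf.length : ℝ)) ^ (2 * t ^ N.zeckendorf.length) *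
          Real.goldenRatio ^ (2 * (p / t))) ∧
    -- the digits are not covered by few intervals of length `ℓ`
    (∀ δ : ℝ, 0 < δ → ∃ c : ℝ, 0 < c ∧ ∀ p : ℕ, p.Prime →
      ∀ M : ℕ, (M = Nat.fib p ∨ M = Nat.fib (p - 1) + Nat.fib (p + 1)) →
      ∀ N : ℕ, ¬ M ∣ N → Real.exp (δ * p) ≤ Nat.gcd M N →
      ∀ (T : Finset ℕ) (ℓ : ℕ), (∀ i ∈ N.zeckendorf, ∃ j ∈ T, j ≤ i ∧ i < j + ℓ) →
        c * Real.log (p / ℓ) ≤ T.card) ∧
    -- the large proper divisors
    (∃ c : ℝ, 0 < c ∧ ∀ p : ℕ, p.Prime →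
      ∀ M : ℕ, (M = Nat.fib p ∨ M = Nat.fib (p - 1) + Nat.fib (p + 1)) →
      ∀ d : ℕ, d ∣ M → d < M → M ≤ d ^ 2 →
      ∀ (T : Finset ℕ) (ℓ : ℕ), (∀ i ∈ d.zeckendorf, ∃ j ∈ T, j ≤ i ∧ i < j + ℓ) →
        c * Real.log (p / ℓ) ≤ T.card) := by
  have hA : ∀ p : ℕ, p.Prime → ∀ M : ℤ, (M = Nat.fib p ∨ M = Nat.fib (p - 1) + Nat.fib (p + 1)) →
      ∀ (S : Finset ℕ) (x x' : ℕ → ℤ) (t : ℕ), 0 < t → t ^ S.card < p →
        ¬ M ∣ ∑ i ∈ S, (x i * Nat.fib i + x' i * Nat.fib (i + 1)) →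
        (Int.gcd M (∑ i ∈ S, (x i * Nat.fib i + x' i * Nat.fib (i + 1))) : ℝ) ≤
          (2 * ∑ i ∈ S, (|(x i : ℝ)| + 2 * |(x' i : ℝ)|)) ^ (2 * t ^ S.card) *
            Real.goldenRatio ^ (2 * (p / t)) := by
    intro p hp M hM S x x' t ht hts hnd
    have h1 := fibMain p hp M (Int.gcd M (∑ i ∈ S, (x i * Nat.fib i + x' i * Nat.fib (i + 1))) : ℤ)
      hM S x x' t ht hts (Int.gcd_dvd_right _ _) (Int.gcd_dvd_left _ _) hnd
    have h2 : |((Int.gcd M (∑ i ∈ S, (x i * Nat.fib i + x' i * Nat.fib (i + 1))) : ℤ) : ℝ)| =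
        (Int.gcd M (∑ i ∈ S, (x i * Nat.fib i + x' i * Nat.fib (i + 1))) : ℝ) := by
      rw [Int.cast_natCast, Nat.abs_cast]
    rwa [h2] at h1
  have hB : ∀ p : ℕ, p.Prime → ∀ M : ℕ, (M = Nat.fib p ∨ M = Nat.fib (p - 1) + Nat.fib (p + 1)) →
      ∀ N t : ℕ, 0 < t → t ^ N.zeckendorf.length < p → ¬ M ∣ N →
        (Nat.gcd M N : ℝ) ≤ (2 * (N.zeckendorf.length : ℝ)) ^ (2 * t ^ N.zeckendorf.length) *
          Real.goldenRatio ^ (2 * (p / t)) := by
    intro p hp M hM N t ht htk hnd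
    obtain ⟨S, hSk, hS⟩ := zeck N
    have h0 : ((N : ℤ)) = ∑ i ∈ S, ((1 : ℤ) * Nat.fib i + (0 : ℤ) * Nat.fib (i + 1)) := hS
    have h1 := hA p hp M (by exact_mod_cast hM) S (fun _ => 1) (fun _ => 0) t ht
      (by rw [hSk]; exact htk) (by
        rw [← h0]
        exact_mod_cast hnd)
    rw [← h0] at h1
    simp only [Int.cast_one, Int.cast_zero, abs_one, abs_zero, mul_zero, add_zero, Finset.sum_const,
      nsmul_eq_mul, mul_one, Int.gcd_natCast_natCast, hSk] at h1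
    exact h1
  have hC : ∀ δ : ℝ, 0 < δ → ∃ c : ℝ, 0 < c ∧ ∀ p : ℕ, p.Prime →
      ∀ M : ℕ, (M = Nat.fib p ∨ M = Nat.fib (p - 1) + Nat.fib (p + 1)) →
      ∀ N : ℕ, ¬ M ∣ N → Real.exp (δ * p) ≤ Nat.gcd M N →
      ∀ (T : Finset ℕ) (ℓ : ℕ), (∀ i ∈ N.zeckendorf, ∃ j ∈ T, j ≤ i ∧ i < j + ℓ) →
        c * Real.log (p / ℓ) ≤ T.card := by
    intro δ hδ
    obtain ⟨c, hc0, hc⟩ := asymp δ hδ
    refine ⟨c, hc0, fun p hp M hM N hnd hexp T ℓ hcov => ?_⟩
    have hN0 : N ≠ 0 := by rintro rfl; exact hnd (dvd_zero _)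
    obtain ⟨i, hi⟩ := List.exists_mem_of_length_pos (zeck_pos N hN0)
    obtain ⟨j, hj, hj1, hj2⟩ := hcov i hi
    refine hc p T.card ℓ _ hp.pos (Finset.card_pos.2 ⟨j, hj⟩) (by omega) hexp (fun t ht htk => ?_)
    obtain ⟨x, x', hx1, hx2⟩ := blocks N T ℓ hcov
    have h1 := hA p hp M (by exact_mod_cast hM) T x x' t ht htk (by
      rw [← hx1]
      exact_mod_cast hnd)
    rw [← hx1, Int.gcd_natCast_natCast] at h1
    refine h1.trans (mul_le_mul_of_nonneg_right ?_ (by
      have := Real.goldenRatio_pos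
      positivity))
    refine pow_le_pow_left₀ ?_ (by linarith) _
    have : 0 ≤ ∑ i ∈ T, (|(x i : ℝ)| + 2 * |(x' i : ℝ)|) :=
      Finset.sum_nonneg fun _ _ => by positivity
    positivity
  refine ⟨hA, hB, hC, ?_⟩
  obtain ⟨c, hc0, hc⟩ := hC (Real.log Real.goldenRatio / 6)
    (div_pos (Real.log_pos Real.one_lt_goldenRatio) (by norm_num))
  refine ⟨c, hc0, fun p hp M hM d hdM hd1 hd2 => ?_⟩
  refine hc p hp M hM d (fun h => ?_) ?_
  · have hd0 : 0 < d := by
      rcases Nat.eq_zero_or_pos d with h0 | h0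
      · subst h0
        have : M = 0 := by simpa using hd2
        omega
      · exact h0
    exact absurd (Nat.le_of_dvd hd0 h) (not_le.2 hd1)
  · rw [Nat.gcd_eq_right hdM]
    have h1 := golden_le p hp M hM
    have h2 : (M : ℝ) ≤ (d : ℝ) ^ 2 := by exact_mod_cast hd2
    have hp2 : p ≠ 2 := by
      rintro rfl
      rcases hM with h | h
      · rw [h] at hd1 hd2 hdM
        norm_num at hd1 hd2 hdM
        omega
      · have : M = 3 := by rw [h]; rfl
        rw [this] at hd1 hd2 hdM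
        interval_cases d <;> revert hd2 hdM <;> decide
    have hp3 : 3 ≤ p := by have := hp.two_le; omega
    have h3 : Real.exp (Real.log Real.goldenRatio / 6 * p) ^ 2 ≤ (d : ℝ) ^ 2 := by
      refine le_trans ?_ h2
      refine le_trans ?_ h1
      have h4 : (0 : ℝ) < Real.goldenRatio := Real.goldenRatio_pos
      rw [← Real.exp_log (pow_pos h4 (p - 2)), ← Real.exp_nat_mul, Real.exp_le_exp, Real.log_pow]
      have h5 : ((p - 2 : ℕ) : ℝ) = p - 2 := by push_cast [Nat.cast_sub (by omega : 2 ≤ p)]; rfl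
      rw [h5]
      have h6 : (3 : ℝ) ≤ p := by exact_mod_cast hp3
      have h7 := Real.log_pos Real.one_lt_goldenRatio
      push_cast
      nlinarith
    exact (pow_le_pow_iff_left₀ (Real.exp_pos _).le (by positivity) two_ne_zero).1 h3

end Pool.Agent.Results.MP_5893d7_nt.SparseMultiples
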